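import Pool.Agent.H21.Ten4

namespace Pool.Agent.Results.MP_50cd9e_lc.ERHard

open Pool.Agent.H11.PT Pool.Agent.H21.ER

theorem result : ∃ f : Qf → ℕ × List (List (List QC)) × QC, PolyTime bits bits f ∧ ∀ φ,
    Shape (f φ).1 (f φ).2.1 ∧ bin (f φ).2.2.2.2 ≠ 0 ∧ 0 < qv (f φ).2.2 ∧
      (ETR φ ↔ ¬SpecLe (f φ).1 (f φ).2.1 (qv (f φ).2.2)) :=
  ⟨pred, pred_pt.polyTime, fun φ => by
    refine ⟨?_, ?_, ?_, pred_iff φ⟩ <;> simp only [pred, qv_nat]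
    exacts [tab_shape _ _, by decide, by simpa using List.length_pos_iff.2 (H2_ne φ)]⟩

end Pool.Agent.Results.MP_50cd9e_lc.ERHard
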